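import Mathlib
import Pool.Agent.V116.LadderGroup

/-!
A strongly topologically orderable gyrogroup (in fact an abelian group) with a suitable set
which has a subgyrogroup without suitable sets.
-/

namespace Pool.Agent.Results.MP_1c9ee6_al.NoSuitableSet

open Set Topology Pool.Agent.V116.LadderGroup

universe u

/-- Gyrogroups. -/
structure Gyrogroup (G : Type u) : Type u where
  op : G → G → G
  one : G
  inv : G → G
  gyr : G → G → G → G
  one_op : ∀ a, op one a = a
  inv_op : ∀ a, op (inv a) a = one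
  gyr_bij : ∀ a b, Function.Bijective (gyr a b)
  gyr_op : ∀ a b c d, gyr a b (op c d) = op (gyr a b c) (gyr a b d)
  op_gyr : ∀ a b c, op a (op b c) = op (op a b) (gyr a b c)
  gyr_loop : ∀ a b, gyr a b = gyr (op a b) b

namespace Gyrogroup

variable {G : Type u} (g : Gyrogroup G)

/-- Topological gyrogroup. -/
def IsTopological [TopologicalSpace G] : Prop :=
  Continuous (fun p : G × G => g.op p.1 p.2) ∧ Continuous g.inv

/-- Strongly topological: there is a neighbourhood base at the identity of sets invariant under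
all gyrations. -/
def IsStrong [TopologicalSpace G] : Prop :=
  ∃ B : Set (Set G), (∀ U ∈ B, U ∈ 𝓝 g.one) ∧ (∀ W ∈ 𝓝 g.one, ∃ U ∈ B, U ⊆ W) ∧
    ∀ U ∈ B, ∀ x y, g.gyr x y '' U = U

/-- Subgyrogroups. -/
def IsSub (H : Set G) : Prop :=
  H.Nonempty ∧ (∀ a ∈ H, g.inv a ∈ H) ∧ ∀ a ∈ H, ∀ b ∈ H, g.op a b ∈ H

/-- The subgyrogroup generated by `S`. -/
def gen (S : Set G) : Set G := ⋂₀ {H | g.IsSub H ∧ S ⊆ H}

/-- `S` is a suitable set for the subgyrogroup `K` (with the subspace topology): `S` is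
a discrete subset of `K`, `S ∪ {1}` is closed in `K` and `S` generates a dense subgyrogroup
of `K`. -/
def IsSuitable [TopologicalSpace G] (K S : Set G) : Prop :=
  S ⊆ K ∧ (∀ s ∈ S, ∃ U, IsOpen U ∧ U ∩ S = {s}) ∧
    (∃ C, IsClosed C ∧ C ∩ K = S ∪ {g.one}) ∧ K ⊆ closure (g.gen S)

end Gyrogroup

/-- The topology of `G` is the order topology of some total order. -/
def IsOrderable (G : Type u) [TopologicalSpace G] : Prop :=
  ∃ o : LinearOrder G, @OrderTopology G _ o.toPreorder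

/-- An additive commutative group as a gyrogroup. -/
def ofAddCommGroup (G : Type u) [AddCommGroup G] : Gyrogroup G where
  op := fun a b => a + b
  one := 0
  inv := fun a => -a
  gyr := fun _ _ c => c
  one_op := zero_add
  inv_op := neg_add_cancel
  gyr_bij := fun _ _ => Function.bijective_id
  gyr_op := fun _ _ _ _ => rfl
  op_gyr := fun a b c => (add_assoc a b c).symm
  gyr_loop := fun _ _ => rfl

/-- The index set `ω₁`. -/
abbrev W1 : Type := (Cardinal.aleph 1).ord.ToType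

lemma good_W1 : Good W1 := by
  have hle : ∀ a : W1, (Set.Iio a).Countable := by
    intro a
    have h : Cardinal.mk (Set.Iio a) < Cardinal.aleph 1 := by
      simpa using Cardinal.mk_Iio_lt a
    have h' : Cardinal.mk (Set.Iio a) < Order.succ Cardinal.aleph0 := by
      rw [Cardinal.succ_aleph0]
      exact h
    rw [Order.lt_succ_iff] at h'
    exact Cardinal.le_aleph0_iff_set_countable.mp h'
  have hiic : ∀ a : W1, (Set.Iic a).Countable := by
    intro a
    rw [← Set.Iio_insert]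
    exact (hle a).insert a
  refine ⟨inferInstance, ?_, hiic, ?_⟩
  · have : (Cardinal.aleph 1).ord ≠ 0 := by
      rw [ne_eq, Cardinal.ord_eq_zero]
      exact (Cardinal.aleph_pos 1).ne'
    exact Ordinal.nonempty_toType_iff.mpr this
  · intro C hC
    by_contra hcon
    push Not at hcon
    have h1 : (Set.univ : Set W1) ⊆ ⋃ c ∈ C, Set.Iic c := by
      intro b _
      obtain ⟨c, hc, hbc⟩ := hcon b
      rw [Set.mem_iUnion₂]
      exact ⟨c, hc, hbc⟩
    have h2 : (Set.univ : Set W1).Countable :=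
      (hC.biUnion fun c _ => hiic c).mono h1
    rw [Set.countable_univ_iff] at h2
    have h3 : Cardinal.mk W1 ≤ Cardinal.aleph0 := Cardinal.mk_le_aleph0_iff.mpr h2
    rw [Cardinal.mk_ord_toType] at h3
    exact absurd h3 (not_le_of_gt Cardinal.aleph0_lt_aleph_one)

variable (L : W1 → Set W1)

/-- The ladder group inside the lexicographically ordered group of all functions. -/
noncomputable def HL : AddSubgroup (Lex (W1 → ℤ)) where
  carrier := {f | (ofLex f : W1 → ℤ) ∈ H0 L}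
  zero_mem' := (H0 L).zero_mem
  add_mem' := fun ha hb => (H0 L).add_mem ha hb
  neg_mem' := fun ha => (H0 L).neg_mem ha

/-- The ladder group as an ordered group. -/
abbrev A : Type := ↥(HL L)

/-- The big group. -/
abbrev G : Type := A L ×ₗ A L

/-- Underlying function. -/
def fn {L : W1 → Set W1} (a : A L) : W1 → ℤ := fun i => (a : Lex (W1 → ℤ)) i

lemma fn_mem {L : W1 → Set W1} (a : A L) : fn a ∈ H0 L := a.2

lemma fn_injective {L : W1 → Set W1} : Function.Injective (fn (L := L)) := by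
  intro a b h
  exact Subtype.ext h

lemma fn_add {L : W1 → Set W1} (a b : A L) : fn (a + b) = fn a + fn b := rfl

lemma fn_neg {L : W1 → Set W1} (a : A L) : fn (-a) = - fn a := rfl

lemma fn_zero {L : W1 → Set W1} : fn (0 : A L) = 0 := rfl

lemma lt_iff {L : W1 → Set W1} {a b : A L} :
    a < b ↔ ∃ i, (∀ j < i, fn a j = fn b j) ∧ fn a i < fn b i := Iff.rfl

/-- Element of `A` from a function. -/
noncomputable def mkA {L : W1 → Set W1} (f : W1 → ℤ) (hf : f ∈ H0 L) : A L :=
  ⟨toLex f, hf⟩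

lemma fn_mkA {L : W1 → Set W1} (f : W1 → ℤ) (hf : f ∈ H0 L) : fn (mkA f hf) = f := rfl

open Classical in
/-- Unit vectors. -/
noncomputable def eA (L : W1 → Set W1) (c : W1) : A L := mkA (Pi.single c 1) (single_mem c)

open Classical in
lemma fn_eA (c : W1) : fn (eA L c) = (Pi.single c 1 : W1 → ℤ) := rfl

lemma eA_self (c : W1) : fn (eA L c) c = 1 := by
  classical
  rw [fn_eA]
  simp

lemma eA_ne {c i : W1} (h : i ≠ c) : fn (eA L c) i = 0 := by
  classical
  rw [fn_eA]
  exact Pi.single_eq_of_ne (M := fun _ : W1 => ℤ) h 1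

lemma eA_pos (c : W1) : 0 < eA L c := by
  rw [lt_iff]
  refine ⟨c, ?_, ?_⟩
  · intro j hj
    rw [eA_ne L hj.ne, fn_zero]
    rfl
  · rw [eA_self, fn_zero]
    exact one_pos

lemma agree_of_between {c : W1} {q : A L} (h1 : q < eA L c) (h2 : -(eA L c) < q) :
    Agree c (fn q) 0 := by
  rw [lt_iff] at h1 h2
  obtain ⟨i, hi1, hi2⟩ := h1
  obtain ⟨i', hi1', hi2'⟩ := h2
  rw [fn_neg] at hi2'
  have hneg : ∀ j, fn (-(eA L c)) j = - fn (eA L c) j := fun j => rfl
  have hci : c ≤ min i i' := by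
    by_contra hlt
    rw [not_le] at hlt
    rcases le_total i i' with h | h
    · rw [min_eq_left h] at hlt
      rw [eA_ne L hlt.ne] at hi2
      rcases h.lt_or_eq with h' | h'
      · have h3 := hi1' i h'
        rw [hneg, eA_ne L hlt.ne] at h3
        omega
      · subst h'
        have h3 : -(fn (eA L c) i) < fn q i := hi2'
        rw [eA_ne L hlt.ne] at h3
        omega
    · rw [min_eq_right h] at hlt
      have h3 : -(fn (eA L c) i') < fn q i' := hi2'
      rw [eA_ne L hlt.ne] at h3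
      rcases h.lt_or_eq with h' | h'
      · have h4 := hi1 i' h'
        rw [eA_ne L hlt.ne] at h4
        omega
      · subst h'
        rw [eA_ne L hlt.ne] at hi2
        omega
  intro j hj
  have h3 := hi1 j (lt_of_lt_of_le hj (hci.trans (min_le_left _ _)))
  rw [eA_ne L hj.ne] at h3
  rw [h3]
  rfl

instance : Nontrivial (A L) := by
  obtain ⟨i0⟩ := good_W1.ne
  exact ⟨0, eA L i0, (eA_pos L i0).ne⟩

noncomputable instance instTopG : TopologicalSpace (G L) := Preorder.topology (G L)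

instance instOrderTopG : OrderTopology (G L) := ⟨rfl⟩

/-- Coordinates. -/
def p1 {L : W1 → Set W1} (q : G L) : A L := (ofLex q).1

/-- Coordinates. -/
def p2 {L : W1 → Set W1} (q : G L) : A L := (ofLex q).2

/-- Pairs. -/
def mk {L : W1 → Set W1} (a b : A L) : G L := toLex (a, b)

lemma ext_G {L : W1 → Set W1} {q r : G L} (h1 : p1 q = p1 r) (h2 : p2 q = p2 r) : q = r :=
  Prod.ext h1 h2

lemma p1_add {L : W1 → Set W1} (q r : G L) : p1 (q + r) = p1 q + p1 r := rfl
lemma p2_add {L : W1 → Set W1} (q r : G L) : p2 (q + r) = p2 q + p2 r := rfl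
lemma p1_sub {L : W1 → Set W1} (q r : G L) : p1 (q - r) = p1 q - p1 r := rfl
lemma p2_sub {L : W1 → Set W1} (q r : G L) : p2 (q - r) = p2 q - p2 r := rfl
lemma p1_neg {L : W1 → Set W1} (q : G L) : p1 (-q) = - p1 q := rfl
lemma p2_neg {L : W1 → Set W1} (q : G L) : p2 (-q) = - p2 q := rfl
lemma p1_zero {L : W1 → Set W1} : p1 (0 : G L) = 0 := rfl
lemma p2_zero {L : W1 → Set W1} : p2 (0 : G L) = 0 := rfl
lemma p1_mk {L : W1 → Set W1} (a b : A L) : p1 (mk a b) = a := rfl
lemma p2_mk {L : W1 → Set W1} (a b : A L) : p2 (mk a b) = b := rfl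

lemma lt_G {L : W1 → Set W1} {q r : G L} :
    q < r ↔ p1 q < p1 r ∨ (p1 q = p1 r ∧ p2 q < p2 r) := Prod.Lex.lt_iff

instance : Nontrivial (G L) := by
  obtain ⟨i0⟩ := good_W1.ne
  refine ⟨0, mk 0 (eA L i0), ?_⟩
  intro h
  have := congrArg p2 h
  exact (eA_pos L i0).ne this

lemma T1 (c : W1) : ∃ ε : G L, 0 < ε ∧
    ∀ q : G L, |q| < ε → p1 q = 0 ∧ Agree c (fn (p2 q)) 0 := by
  refine ⟨mk 0 (eA L c), ?_, ?_⟩
  · rw [lt_G]
    exact Or.inr ⟨rfl, eA_pos L c⟩
  · intro q hq
    rw [abs_lt, lt_G, lt_G] at hq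
    obtain ⟨h1, h2⟩ := hq
    rw [p1_neg, p2_neg, p1_mk, p2_mk, neg_zero] at h1
    rw [p1_mk, p2_mk] at h2
    rcases h1 with h1 | ⟨h1, h1'⟩
    · rcases h2 with h2 | ⟨h2, h2'⟩
      · exact absurd (h1.trans h2) (lt_irrefl _)
      · exact absurd h2 h1.ne'
    · rcases h2 with h2 | ⟨h2, h2'⟩
      · exact absurd h1 h2.ne'
      · exact ⟨h2, agree_of_between L h2' h1'⟩

lemma lt_of_agree {i c : W1} (hic : i < c) {q b : A L} (hq : Agree c (fn q) 0)
    (hb1 : ∀ j < i, 0 = fn b j) (hb2 : 0 < fn b i) : q < b := by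
  rw [lt_iff]
  refine ⟨i, ?_, ?_⟩
  · intro j hj
    rw [hq j (hj.trans hic), ← hb1 j hj]
    rfl
  · rw [hq i hic]
    exact hb2

lemma T2 {ε : G L} (hε : 0 < ε) :
    ∃ c : W1, ∀ q : G L, p1 q = 0 → Agree c (fn (p2 q)) 0 → |q| < ε := by
  rw [lt_G, p1_zero, p2_zero] at hε
  rcases hε with h | ⟨h, h'⟩
  · obtain ⟨i0⟩ := good_W1.ne
    refine ⟨i0, fun q hq _ => ?_⟩
    rw [abs_lt, lt_G, lt_G, p1_neg, hq]
    exact ⟨Or.inl (neg_lt_zero.mpr h), Or.inl h⟩
  · rw [lt_iff] at h'
    obtain ⟨i, hi1, hi2⟩ := h'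
    obtain ⟨c, hc⟩ := good_W1.bdd {i} (Set.countable_singleton i)
    have hic : i < c := hc i rfl
    refine ⟨c, fun q hq hag => ?_⟩
    rw [abs_lt, lt_G, lt_G, p1_neg, p2_neg, hq, ← h, neg_zero]
    refine ⟨Or.inr ⟨rfl, ?_⟩, Or.inr ⟨rfl, ?_⟩⟩
    · rw [neg_lt]
      apply lt_of_agree L hic ?_ hi1 hi2
      intro j hj
      rw [fn_neg, Pi.neg_apply, hag j hj]
      rfl
    · exact lt_of_agree L hic hag hi1 hi2

lemma mem_nhds_iff' {p : G L} {U : Set (G L)} (hU : U ∈ 𝓝 p) :
    ∃ c : W1, ∀ q : G L, p1 q = p1 p → Agree c (fn (p2 q)) (fn (p2 p)) → q ∈ U := by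
  obtain ⟨ε, hε, h⟩ := (nhds_basis_abs_sub_lt p).mem_iff.mp hU
  obtain ⟨c, hc⟩ := T2 L hε
  refine ⟨c, fun q hq1 hq2 => h ?_⟩
  apply hc
  · rw [p1_sub, hq1, sub_self]
  · intro j hj
    have h1 : fn (p2 (q - p)) = fn (p2 q) - fn (p2 p) := rfl
    rw [h1, Pi.sub_apply, hq2 j hj, sub_self]
    rfl

lemma ball_mem_nhds (p : G L) (c : W1) :
    {q : G L | p1 q = p1 p ∧ Agree c (fn (p2 q)) (fn (p2 p))} ∈ 𝓝 p := by
  obtain ⟨ε, hε, h⟩ := T1 L c
  refine (nhds_basis_abs_sub_lt p).mem_iff.mpr ⟨ε, hε, ?_⟩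
  intro q hq
  obtain ⟨h1, h2⟩ := h (q - p) hq
  rw [p1_sub, sub_eq_zero] at h1
  refine ⟨h1, ?_⟩
  intro j hj
  have h3 := h2 j hj
  have h4 : fn (p2 (q - p)) j = fn (p2 q) j - fn (p2 p) j := rfl
  rw [h4] at h3
  exact sub_eq_zero.mp h3

lemma isOpen_fiber (a : A L) : IsOpen {q : G L | p1 q = a} := by
  rw [isOpen_iff_mem_nhds]
  intro q hq
  obtain ⟨i0⟩ := good_W1.ne
  refine Filter.mem_of_superset (ball_mem_nhds L q i0) ?_
  intro r hr
  exact hr.1.trans hq

/-- The suitable set of the big group. -/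
def bigS : Set (G L) := {q | p2 q = p1 q} ∪ {q | p2 q = 0}

lemma fiber_finite (a : A L) : ({q : G L | p1 q = a} ∩ bigS L).Finite := by
  refine ((Set.finite_singleton (mk a (0 : A L))).insert (mk a a)).subset ?_
  rintro q ⟨hq, h | h⟩
  · left
    exact ext_G hq (Eq.trans h hq)
  · right
    exact ext_G hq h

lemma big_suitable : (ofAddCommGroup (G L)).IsSuitable Set.univ (bigS L) := by
  refine ⟨Set.subset_univ _, ?_, ?_, ?_⟩
  · intro s hs
    refine ⟨{q : G L | p1 q = p1 s} \ (({q : G L | p1 q = p1 s} ∩ bigS L) \ {s}), ?_, ?_⟩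
    · apply (isOpen_fiber L (p1 s)).sdiff
      exact ((fiber_finite L (p1 s)).subset Set.diff_subset).isClosed
    · ext q
      constructor
      · rintro ⟨⟨h1, h2⟩, h3⟩
        by_contra hne
        exact h2 ⟨⟨h1, h3⟩, hne⟩
      · intro hq
        rw [Set.mem_singleton_iff] at hq
        subst hq
        exact ⟨⟨rfl, fun h => h.2 rfl⟩, hs⟩
  · refine ⟨bigS L, ?_, ?_⟩
    · rw [← isOpen_compl_iff, isOpen_iff_mem_nhds]
      intro q hq
      have h1 : IsOpen ({r : G L | p1 r = p1 q} \ ({r : G L | p1 r = p1 q} ∩ bigS L)) :=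
        (isOpen_fiber L (p1 q)).sdiff (fiber_finite L (p1 q)).isClosed
      refine Filter.mem_of_superset (h1.mem_nhds ⟨rfl, fun h => hq h.2⟩) ?_
      rintro r ⟨h2, h3⟩ h4
      exact h3 ⟨h2, h4⟩
    · rw [Set.inter_univ]
      symm
      rw [Set.union_eq_left]
      intro q hq
      rw [Set.mem_singleton_iff] at hq
      subst hq
      exact Or.inr rfl
  · have h1 : (ofAddCommGroup (G L)).gen (bigS L) = Set.univ := by
      rw [Set.eq_univ_iff_forall]
      intro q
      rintro H ⟨⟨_, hneg, hadd⟩, hS⟩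
      have h2 : mk (p1 q) 0 ∈ H := hS (Or.inr rfl)
      have h3 : mk (p2 q) 0 ∈ H := hS (Or.inr rfl)
      have h4 : mk (p2 q) (p2 q) ∈ H := hS (Or.inl rfl)
      have h5 : mk (p2 q) (p2 q) + -(mk (p2 q) 0) ∈ H := hadd _ h4 _ (hneg _ h3)
      have h6 : mk (p1 q) 0 + (mk (p2 q) (p2 q) + -(mk (p2 q) 0)) ∈ H := hadd _ h2 _ h5
      have h7 : mk (p1 q) 0 + (mk (p2 q) (p2 q) + -(mk (p2 q) 0)) = q := by
        apply ext_G
        · rw [p1_add, p1_add, p1_neg, p1_mk, p1_mk, p1_mk]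
          abel
        · rw [p2_add, p2_add, p2_neg, p2_mk, p2_mk, p2_mk]
          abel
      rw [h7] at h6
      exact h6
    rw [h1, closure_univ]

/-- The subgroup without suitable sets. -/
def smallH : Set (G L) := {q | p1 q = 0}

lemma smallH_sub : (ofAddCommGroup (G L)).IsSub (smallH L) := by
  refine ⟨⟨0, rfl⟩, ?_, ?_⟩
  · intro a ha
    change p1 (-a) = 0
    have ha' : p1 a = 0 := ha
    rw [p1_neg, ha', neg_zero]
  · intro a ha b hb
    change p1 (a + b) = 0
    have ha' : p1 a = 0 := ha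
    have hb' : p1 b = 0 := hb
    rw [p1_add, ha', hb', add_zero]

lemma not_suitable (hL : IsLadder L) (S : Set (G L))
    (hS : (ofAddCommGroup (G L)).IsSuitable (smallH L) S) : False := by
  obtain ⟨hSH, hdisc, ⟨C, hC, hCH⟩, hdense⟩ := hS
  let S' : Set (W1 → ℤ) := (fun q => fn (p2 q)) '' S
  have hS'0 : S' ⊆ H0 L := by
    rintro _ ⟨q, _, rfl⟩
    exact fn_mem _
  refine no_suitable good_W1 hL hS'0 ?_ ?_
  · intro z hz hz0
    let p : G L := mk 0 (mkA z hz)
    have hpz : fn (p2 p) = z := rfl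
    by_cases hp : p ∈ S
    · obtain ⟨U, hU, hUS⟩ := hdisc p hp
      have hpU : p ∈ U := by
        have : p ∈ U ∩ S := by
          rw [hUS]
          rfl
        exact this.1
      obtain ⟨c, hc⟩ := mem_nhds_iff' L (hU.mem_nhds hpU)
      have key : ∀ s ∈ S', Agree c s z → s = z := by
        rintro _ ⟨q, hq, rfl⟩ hag
        have h1 : p1 q = 0 := hSH hq
        have h2 : q ∈ U := hc q h1 hag
        have h3 : q ∈ U ∩ S := ⟨h2, hq⟩
        rw [hUS, Set.mem_singleton_iff] at h3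
        rw [h3]
        rfl
      refine ⟨c, fun s hs s' hs' h1 h2 => ?_⟩
      rw [key s hs h1, key s' hs' h2]
    · have hpC : p ∉ C := by
        intro hpC
        have h1 : p ∈ C ∩ smallH L := ⟨hpC, rfl⟩
        rw [hCH] at h1
        rcases h1 with h1 | h1
        · exact hp h1
        · rw [Set.mem_singleton_iff] at h1
          apply hz0
          have h2 : fn (p2 p) = fn (p2 (0 : G L)) := by
            rw [h1]
            rfl
          rw [hpz] at h2
          rw [h2]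
          rfl
      obtain ⟨c, hc⟩ := mem_nhds_iff' L (hC.isOpen_compl.mem_nhds hpC)
      refine ⟨c, fun s hs s' hs' h1 h2 => ?_⟩
      exfalso
      obtain ⟨q, hq, rfl⟩ := hs
      have h3 : p1 q = 0 := hSH hq
      have h4 : q ∈ Cᶜ := hc q h3 h1
      apply h4
      have h5 : q ∈ C ∩ smallH L := by
        rw [hCH]
        exact Or.inl hq
      exact h5.1
  · intro z hz c
    let p : G L := mk 0 (mkA z hz)
    have hp : p ∈ closure ((ofAddCommGroup (G L)).gen S) := hdense rfl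
    rw [mem_closure_iff_nhds] at hp
    obtain ⟨q, ⟨hq1, hq2⟩, hqg⟩ := hp _ (ball_mem_nhds L p c)
    refine ⟨fn (p2 q), ?_, hq2⟩
    have h1 : q ∈ {q : G L | fn (p2 q) ∈ AddSubgroup.closure S'} := by
      apply hqg
      refine ⟨⟨⟨0, ?_⟩, ?_, ?_⟩, ?_⟩
      · exact (AddSubgroup.closure S').zero_mem
      · intro a ha
        exact (AddSubgroup.closure S').neg_mem ha
      · intro a ha b hb
        exact (AddSubgroup.closure S').add_mem ha hb
      · intro s hs
        exact AddSubgroup.subset_closure ⟨s, hs, rfl⟩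
    exact h1

/-- There are a strongly topologically orderable gyrogroup with a suitable set and a
subgyrogroup of it without suitable sets. -/
theorem result :
    ∃ (G : Type) (g : Gyrogroup G) (_ : TopologicalSpace G),
      g.IsTopological ∧ g.IsStrong ∧ IsOrderable G ∧
      (∃ S : Set G, g.IsSuitable Set.univ S) ∧
      ∃ H : Set G, g.IsSub H ∧ ¬ ∃ S : Set G, g.IsSuitable H S := by
  obtain ⟨L, hL⟩ := exists_ladder good_W1
  refine ⟨G L, ofAddCommGroup (G L), instTopG L, ?_, ?_, ?_, ⟨bigS L, big_suitable L⟩,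
    smallH L, smallH_sub L, ?_⟩
  · exact ⟨continuous_add, continuous_neg⟩
  · refine ⟨{U | U ∈ 𝓝 (0 : G L)}, fun U hU => hU, fun W hW => ⟨W, hW, subset_rfl⟩, ?_⟩
    intro U _ x y
    exact Set.image_id U
  · exact ⟨inferInstance, instOrderTopG L⟩
  · rintro ⟨S, hS⟩
    exact not_suitable L hL S hS

end Pool.Agent.Results.MP_1c9ee6_al.NoSuitableSet
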